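import Mathlib

open MeasureTheory Set Metric
open scoped ENNReal NNReal RealInnerProductSpace

/-!
# Lebesgue null sets are null for the generalized-strip outer measure

For a finite set of distinct slopes `p i` and constants `c i` put `b i = c i - ‖p i‖² / 2` and
`f y = max_i (⟪p i, y⟫ - b i)`.  A point `x` lies outside the generalized strip `S(f)` if and only
if there is an `i` with `⟪p i, x⟫ - c i > ⟪p j, x⟫ - c j + ‖p i - p j‖² / 2` for all `j ≠ i`.
If the slopes are taken from a fine cubical grid and the constants `c` (almost) minimise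
`∫_U max_i (⟪p i, x⟫ - c i) dx + (|U| / N) ∑ c i` (semidiscrete optimal transport from `U` to
the slopes), then each cell `{x ∈ U | the i-th function is the strict maximum}` has measure at
most about `|U| / N`, whereas an uncovered point of a compact `C ⊆ U` forces a whole cube of the
size of the mesh into one cell.  For small mesh this is a contradiction as soon as
`|U| < (2 ε / √d) ^ d`, where `ε` bounds the slopes.  So compact sets of small measure lie in one
generalized strip of small width; a countable decomposition then handles all null sets.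
-/

namespace Pool.Agent.Results.MP_0a22a9_gt.LebesgueNullIsGammaNull

/-- Pointwise maximum of the affine functions `y ↦ ⟪p i, y⟫ - b i`. -/
noncomputable def maxAff {d : ℕ} {ι : Type} [Fintype ι] [Nonempty ι]
    (p : ι → EuclideanSpace ℝ (Fin d)) (b : ι → ℝ) (y : EuclideanSpace ℝ (Fin d)) : ℝ :=
  Finset.univ.sup' Finset.univ_nonempty (fun i => ⟪p i, y⟫ - b i)

section basic
variable {d : ℕ} {ι : Type} [Fintype ι] [Nonempty ι]
  (p : ι → EuclideanSpace ℝ (Fin d)) (b : ι → ℝ)

lemma le_maxAff (i : ι) (y : EuclideanSpace ℝ (Fin d)) : ⟪p i, y⟫ - b i ≤ maxAff p b y :=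
  Finset.le_sup' (fun i => ⟪p i, y⟫ - b i) (Finset.mem_univ i)

lemma maxAff_le {y : EuclideanSpace ℝ (Fin d)} {a : ℝ} (h : ∀ i, ⟪p i, y⟫ - b i ≤ a) :
    maxAff p b y ≤ a :=
  Finset.sup'_le _ _ (fun i _ => h i)

lemma exists_maxAff_eq (y : EuclideanSpace ℝ (Fin d)) : ∃ i, maxAff p b y = ⟪p i, y⟫ - b i := by
  obtain ⟨i, _, hi⟩ := Finset.exists_mem_eq_sup' (s := (Finset.univ : Finset ι))
    Finset.univ_nonempty (fun i => ⟪p i, y⟫ - b i)
  exact ⟨i, hi⟩

lemma maxAff_sub_le {L : ℝ} (hL : ∀ i, ‖p i‖ ≤ L) (x y : EuclideanSpace ℝ (Fin d)) :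
    maxAff p b x - maxAff p b y ≤ L * ‖x - y‖ := by
  obtain ⟨i, hi⟩ := exists_maxAff_eq p b x
  have h1 := le_maxAff p b i y
  have h2 : ⟪p i, x - y⟫ ≤ ‖p i‖ * ‖x - y‖ := real_inner_le_norm _ _
  have h3 : ‖p i‖ * ‖x - y‖ ≤ L * ‖x - y‖ := mul_le_mul_of_nonneg_right (hL i) (norm_nonneg _)
  rw [inner_sub_right] at h2
  linarith

lemma maxAff_lipschitz {L : ℝ≥0} (hL : ∀ i, ‖p i‖ ≤ L) : LipschitzWith L (maxAff p b) := by
  refine LipschitzWith.of_dist_le_mul fun x y => ?_
  rw [Real.dist_eq, dist_eq_norm, abs_le]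
  constructor
  · have := maxAff_sub_le p b hL y x
    rw [norm_sub_rev] at this
    linarith
  · exact maxAff_sub_le p b hL x y

lemma maxAff_continuous : Continuous (maxAff p b) := by
  unfold maxAff
  apply Continuous.finset_sup'_apply
  intro i _
  fun_prop

end basic


section variational
variable {d : ℕ} {ι : Type} [Fintype ι] [Nonempty ι]

lemma integrableOn_maxAff (p : ι → EuclideanSpace ℝ (Fin d)) (c : ι → ℝ)
    {U : Set (EuclideanSpace ℝ (Fin d))} (hUb : Bornology.IsBounded U) :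
    IntegrableOn (maxAff p c) U := by
  obtain ⟨R, hR⟩ := hUb.subset_closedBall 0
  exact ((maxAff_continuous p c).continuousOn.integrableOn_compact
    (isCompact_closedBall (0 : EuclideanSpace ℝ (Fin d)) R)).mono_set hR

lemma exists_weights (p : ι → EuclideanSpace ℝ (Fin d))
    {U : Set (EuclideanSpace ℝ (Fin d))} (hUm : MeasurableSet U) (hUb : Bornology.IsBounded U)
    {t κ : ℝ} (ht : 0 < t) (hκ : (volume U).toReal / Fintype.card ι < κ) :
    ∃ c : ι → ℝ, ∀ i,
      (volume (U ∩ {x | ∀ j, j ≠ i → ⟪p j, x⟫ - c j + t ≤ ⟪p i, x⟫ - c i})).toReal ≤ κ := by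
  classical
  set N : ℝ := (Fintype.card ι : ℝ) with hN
  have hNpos : 0 < N := by
    rw [hN]; exact_mod_cast Fintype.card_pos
  set v : ℝ := (volume U).toReal with hv
  have hUfin : volume U < ∞ := hUb.measure_lt_top
  have hv0 : 0 ≤ v := ENNReal.toReal_nonneg
  set Φ : (ι → ℝ) → ℝ := fun c => (∫ x in U, maxAff p c x) + v / N * ∑ i, c i with hΦ
  -- a bound for the inner products on U
  obtain ⟨R, hR⟩ := hUb.subset_closedBall 0
  have hbound : ∃ M : ℝ, ∀ x ∈ U, ∀ i, -M ≤ ⟪p i, x⟫ := by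
    refine ⟨(∑ i, ‖p i‖) * |R|, fun x hx i => ?_⟩
    have h1 : |⟪p i, x⟫| ≤ ‖p i‖ * ‖x‖ := abs_real_inner_le_norm _ _
    have h2 : ‖x‖ ≤ |R| := by
      have := hR hx
      rw [mem_closedBall_zero_iff] at this
      exact this.trans (le_abs_self R)
    have h3 : ‖p i‖ ≤ ∑ i, ‖p i‖ :=
      Finset.single_le_sum (f := fun i => ‖p i‖) (fun i _ => norm_nonneg _) (Finset.mem_univ i)
    have h4 : ‖p i‖ * ‖x‖ ≤ (∑ i, ‖p i‖) * |R| :=
      mul_le_mul h3 h2 (norm_nonneg _) (le_trans (norm_nonneg _) h3)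
    have := neg_abs_le (⟪p i, x⟫)
    linarith
  obtain ⟨M, hM⟩ := hbound
  have hlow : ∀ c, -M * v ≤ Φ c := by
    intro c
    have h1 : ∀ x ∈ U, -M - (∑ i, c i) / N ≤ maxAff p c x := by
      intro x hx
      have h2 : ∑ i : ι, (-M - c i) ≤ ∑ i : ι, maxAff p c x := by
        apply Finset.sum_le_sum
        intro i _
        have := le_maxAff p c i x
        have := hM x hx i
        linarith
      rw [Finset.sum_sub_distrib, Finset.sum_const, Finset.sum_const, Finset.card_univ,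
        nsmul_eq_mul, nsmul_eq_mul] at h2
      rw [← hN] at h2
      have h3 : (∑ i, c i) / N * N = ∑ i, c i := div_mul_cancel₀ _ hNpos.ne'
      have h4 : N * (-M - (∑ i, c i) / N) ≤ N * maxAff p c x := by linarith
      exact le_of_mul_le_mul_left h4 hNpos
    have h5 : (-M - (∑ i, c i) / N) * v ≤ ∫ x in U, maxAff p c x := by
      have h6 : ∫ x in U, (-M - (∑ i, c i) / N) = v * (-M - (∑ i, c i) / N) := by
        rw [setIntegral_const, smul_eq_mul]
        rfl
      rw [mul_comm, ← h6]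
      refine setIntegral_mono_on ?_ (integrableOn_maxAff p c hUb) hUm h1
      exact integrableOn_const hUfin.ne
    simp only [hΦ]
    have h7 : (-M - (∑ i, c i) / N) * v = -M * v - v / N * ∑ i, c i := by
      field_simp
    linarith
  have hbdd : BddBelow (range Φ) := ⟨-M * v, by rintro _ ⟨c, rfl⟩; exact hlow c⟩
  have hδ : 0 < t * (κ - v / N) := mul_pos ht (by linarith)
  obtain ⟨c, hc⟩ : ∃ c, Φ c < (⨅ c, Φ c) + t * (κ - v / N) :=
    exists_lt_of_ciInf_lt (by linarith)
  refine ⟨c, fun i => ?_⟩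
  set G : Set (EuclideanSpace ℝ (Fin d)) :=
    {x | ∀ j, j ≠ i → ⟪p j, x⟫ - c j + t ≤ ⟪p i, x⟫ - c i} with hG
  have hGm : MeasurableSet G := by
    have : IsClosed G := by
      have : G = ⋂ j, ⋂ (_ : j ≠ i), {x | ⟪p j, x⟫ - c j + t ≤ ⟪p i, x⟫ - c i} := by
        ext x; simp [hG]
      rw [this]
      refine isClosed_iInter fun j => isClosed_iInter fun _ => ?_
      exact isClosed_le (by fun_prop) (by fun_prop)
    exact this.measurableSet
  set c' : ι → ℝ := Function.update c i (c i + t) with hc'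
  have hpt : ∀ x, maxAff p c' x ≤ maxAff p c x - G.indicator (fun _ => t) x := by
    intro x
    apply maxAff_le
    intro j
    by_cases hx : x ∈ G
    · rw [indicator_of_mem hx]
      by_cases hji : j = i
      · subst hji
        have := le_maxAff p c j x
        simp only [hc', Function.update_self]
        linarith
      · have h1 := hx j hji
        have h2 := le_maxAff p c i x
        simp only [hc', Function.update_of_ne hji]
        linarith
    · rw [indicator_of_notMem hx]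
      by_cases hji : j = i
      · subst hji
        have := le_maxAff p c j x
        simp only [hc', Function.update_self]
        linarith
      · have h2 := le_maxAff p c j x
        simp only [hc', Function.update_of_ne hji]
        linarith
  have hint : ∫ x in U, maxAff p c' x ≤ (∫ x in U, maxAff p c x) - t * (volume (U ∩ G)).toReal := by
    have hI : IntegrableOn (G.indicator (fun _ => t)) U :=
      (integrableOn_const hUfin.ne).indicator hGm
    have h1 : ∫ x in U, maxAff p c' x ≤ ∫ x in U, (maxAff p c x - G.indicator (fun _ => t) x) :=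
      setIntegral_mono_on (integrableOn_maxAff p c' hUb)
        ((integrableOn_maxAff p c hUb).sub hI) hUm (fun x _ => hpt x)
    rw [integral_sub (integrableOn_maxAff p c hUb) hI, setIntegral_indicator hGm,
      setIntegral_const, smul_eq_mul, mul_comm] at h1
    exact h1
  have hsum : ∑ j, c' j = ∑ j, c j + t := by
    rw [hc', Finset.sum_update_of_mem (Finset.mem_univ i)]
    have := Finset.sum_erase_add (Finset.univ) c (Finset.mem_univ i)
    rw [Finset.sdiff_singleton_eq_erase]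
    linarith
  have hmin : (⨅ c, Φ c) ≤ Φ c' := ciInf_le hbdd c'
  have hcomb : Φ c' ≤ Φ c - t * (volume (U ∩ G)).toReal + v / N * t := by
    simp only [hΦ, hsum]
    linarith
  have : t * (volume (U ∩ G)).toReal < t * κ := by nlinarith
  exact (lt_of_mul_lt_mul_left this ht.le).le

end variational


/-- The proximal map of `f`: the minimiser over `y` of `f y + |x - y|² / 2`. -/
noncomputable def prox {d : ℕ} (f : EuclideanSpace ℝ (Fin d) → ℝ)
    (x : EuclideanSpace ℝ (Fin d)) : EuclideanSpace ℝ (Fin d) :=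
  Classical.epsilon (fun y => ∀ z, f y + 1 / 2 * ‖x - y‖ ^ 2 ≤ f z + 1 / 2 * ‖x - z‖ ^ 2)

section proxsec
variable {d : ℕ} {ι : Type} [Fintype ι] [Nonempty ι]

lemma prox_spec {L : ℝ≥0} {f : EuclideanSpace ℝ (Fin d) → ℝ} (hf : LipschitzWith L f)
    (x z : EuclideanSpace ℝ (Fin d)) :
    f (prox f x) + 1 / 2 * ‖x - prox f x‖ ^ 2 ≤ f z + 1 / 2 * ‖x - z‖ ^ 2 := by
  have hex : ∃ y, ∀ z, f y + 1 / 2 * ‖x - y‖ ^ 2 ≤ f z + 1 / 2 * ‖x - z‖ ^ 2 := by
    refine Continuous.exists_forall_le_of_isBounded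
      (f := fun y => f y + 1 / 2 * ‖x - y‖ ^ 2) ?_ x ?_
    · have := hf.continuous
      fun_prop
    · refine (isBounded_closedBall (x := x) (r := 2 * L)).subset ?_
      intro y hy
      have h1 : f y + 1 / 2 * ‖x - y‖ ^ 2 ≤ f x + 1 / 2 * ‖x - x‖ ^ 2 := hy
      have h2 : |f x - f y| ≤ L * ‖x - y‖ := by
        have := hf.dist_le_mul x y
        rwa [Real.dist_eq, dist_eq_norm] at this
      have h3 := le_abs_self (f x - f y)
      rw [sub_self, norm_zero] at h1
      have h4 : 1 / 2 * ‖x - y‖ ^ 2 ≤ L * ‖x - y‖ := by nlinarith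
      rw [mem_closedBall, dist_comm, dist_eq_norm]
      by_contra hlt
      push Not at hlt
      have h5 : 0 ≤ (L : ℝ) := L.2
      have h6 : 0 < ‖x - y‖ := by linarith
      nlinarith
  exact Classical.epsilon_spec (p := fun y => ∀ z, f y + 1 / 2 * ‖x - y‖ ^ 2 ≤
    f z + 1 / 2 * ‖x - z‖ ^ 2) hex z

lemma eq_of_differentiable {p : ι → EuclideanSpace ℝ (Fin d)} (hp : Function.Injective p)
    {b : ι → ℝ} {x y : EuclideanSpace ℝ (Fin d)}
    (hmin : ∀ z, maxAff p b y + 1 / 2 * ‖x - y‖ ^ 2 ≤ maxAff p b z + 1 / 2 * ‖x - z‖ ^ 2)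
    (hd : DifferentiableAt ℝ (maxAff p b) y) :
    ∃ k, x = y + p k ∧ ∀ l, l ≠ k → ⟪p l, y⟫ - b l < ⟪p k, y⟫ - b k := by
  have hD := hd.hasFDerivAt
  set f' := fderiv ℝ (maxAff p b) y with hf'
  -- the gradient is `x - y`
  have hF : HasFDerivAt (fun z => maxAff p b z + 1 / 2 * ‖x - z‖ ^ 2)
      (f' + (1 / 2 : ℝ) • (2 • (innerSL ℝ (x - y)).comp
        (-(ContinuousLinearMap.id ℝ (EuclideanSpace ℝ (Fin d)))))) y := by
    have h1 : HasFDerivAt (fun z => x - z)
        (-(ContinuousLinearMap.id ℝ (EuclideanSpace ℝ (Fin d)))) y :=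
      (hasFDerivAt_id y).const_sub x
    exact hD.add ((h1.norm_sq).const_mul (1 / 2))
  have hmin' : IsLocalMin (fun z => maxAff p b z + 1 / 2 * ‖x - z‖ ^ 2) y :=
    Filter.Eventually.of_forall hmin
  have hF0 := hmin'.hasFDerivAt_eq_zero hF
  have hgrad : ∀ v, f' v = ⟪x - y, v⟫ := by
    intro v
    have := DFunLike.congr_fun hF0 v
    simp at this
    rw [inner_sub_left]
    linarith
  have hact : ∀ k, maxAff p b y = ⟪p k, y⟫ - b k → x - y = p k := by
    intro k hk
    have hG : HasFDerivAt (fun z => maxAff p b z - (⟪p k, z⟫ - b k)) (f' - innerSL ℝ (p k)) y := by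
      have h1 : HasFDerivAt (fun z => ⟪p k, z⟫ - b k) (innerSL ℝ (p k)) y :=
        ((innerSL ℝ (p k)).hasFDerivAt).sub_const (b k)
      exact hD.sub h1
    have hGmin : IsLocalMin (fun z => maxAff p b z - (⟪p k, z⟫ - b k)) y := by
      refine Filter.Eventually.of_forall fun z => ?_
      have := le_maxAff p b k z
      simp only [hk]
      linarith
    have hG0 := hGmin.hasFDerivAt_eq_zero hG
    refine ext_inner_right ℝ fun v => ?_
    have := DFunLike.congr_fun hG0 v
    simp at this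
    rw [← hgrad v]
    linarith
  obtain ⟨k, hk⟩ := exists_maxAff_eq p b y
  refine ⟨k, ?_, fun l hl => ?_⟩
  · rw [← hact k hk]; abel
  · rw [← hk]
    refine lt_of_le_of_ne (le_maxAff p b l y) fun h => hl ?_
    exact hp ((hact l h.symm).symm.trans (hact k hk))

end proxsec


section lattice

/-- points of a cubical grid -/
noncomputable def gridPt {d : ℕ} (η : ℝ) (n : ℕ) (k : Fin d → Fin (2 * n + 1)) :
    EuclideanSpace ℝ (Fin d) :=
  WithLp.toLp 2 (fun a => η * (((k a : ℕ) : ℝ) - n))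

lemma gridPt_apply {d : ℕ} (η : ℝ) (n : ℕ) (k : Fin d → Fin (2 * n + 1)) (a : Fin d) :
    gridPt η n k a = η * (((k a : ℕ) : ℝ) - n) := rfl

lemma gridPt_injective {d : ℕ} {η : ℝ} (hη : 0 < η) (n : ℕ) :
    Function.Injective (gridPt (d := d) η n) := by
  intro k l h
  funext a
  have h1 : gridPt η n k a = gridPt η n l a := by rw [h]
  rw [gridPt_apply, gridPt_apply] at h1
  have h2 := mul_left_cancel₀ hη.ne' h1
  have h3 : ((k a : ℕ) : ℝ) = ((l a : ℕ) : ℝ) := by linarith
  exact Fin.ext (by exact_mod_cast h3)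

lemma norm_gridPt_le {d : ℕ} {η : ℝ} (hη : 0 < η) (n : ℕ) (k : Fin d → Fin (2 * n + 1)) :
    ‖gridPt η n k‖ ≤ η * n * √d := by
  rw [EuclideanSpace.norm_eq]
  have h1 : ∀ a, ‖gridPt η n k a‖ ^ 2 ≤ (η * n) ^ 2 := by
    intro a
    rw [gridPt_apply, norm_mul, Real.norm_eq_abs, Real.norm_eq_abs, abs_of_pos hη]
    have h2 : |((k a : ℕ) : ℝ) - n| ≤ n := by
      have h3 : (k a : ℕ) < 2 * n + 1 := (k a).2
      have h4 : ((k a : ℕ) : ℝ) ≤ 2 * n := by exact_mod_cast Nat.lt_succ_iff.mp h3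
      have h5 : (0 : ℝ) ≤ ((k a : ℕ) : ℝ) := Nat.cast_nonneg _
      rw [abs_le]; constructor <;> linarith
    have h6 : 0 ≤ η * |((k a : ℕ) : ℝ) - n| := by positivity
    exact pow_le_pow_left₀ h6 (mul_le_mul_of_nonneg_left h2 hη.le) 2
  have h2 : ∑ a, ‖gridPt η n k a‖ ^ 2 ≤ (η * n) ^ 2 * d := by
    calc ∑ a, ‖gridPt η n k a‖ ^ 2 ≤ ∑ _a : Fin d, (η * n) ^ 2 :=
          Finset.sum_le_sum fun a _ => h1 a
      _ = (η * n) ^ 2 * d := by simp [mul_comm]
  calc √(∑ a, ‖gridPt η n k a‖ ^ 2) ≤ √((η * n) ^ 2 * d) := Real.sqrt_le_sqrt h2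
    _ = η * n * √d := by
      rw [Real.sqrt_mul (by positivity), Real.sqrt_sq (by positivity)]

lemma grid_ineq {d : ℕ} {η h : ℝ} (hη : 0 < η) (hh2 : h ≤ η / 2) (n : ℕ)
    {k l : Fin d → Fin (2 * n + 1)} (hkl : l ≠ k) {z : EuclideanSpace ℝ (Fin d)}
    (hz : ∀ a, |z a| ≤ h) :
    ⟪gridPt η n l - gridPt η n k, z⟫ + η * (η / 2 - h) ≤ ‖gridPt η n l - gridPt η n k‖ ^ 2 / 2 := by
  set m : Fin d → ℤ := fun a => ((l a : ℕ) : ℤ) - ((k a : ℕ) : ℤ) with hm
  have hma : ∀ a, (gridPt η n l - gridPt η n k) a = η * (m a : ℝ) := by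
    intro a
    rw [PiLp.sub_apply, gridPt_apply, gridPt_apply, hm]
    push_cast
    ring
  have hnorm : ‖gridPt η n l - gridPt η n k‖ ^ 2 = η ^ 2 * ∑ a, (m a : ℝ) ^ 2 := by
    rw [EuclideanSpace.norm_sq_eq, Finset.mul_sum]
    refine Finset.sum_congr rfl fun a _ => ?_
    rw [hma, Real.norm_eq_abs, sq_abs]
    ring
  have hinner : ⟪gridPt η n l - gridPt η n k, z⟫ ≤ η * h * ∑ a, (m a : ℝ) ^ 2 := by
    rw [PiLp.inner_apply, Finset.mul_sum]
    refine Finset.sum_le_sum fun a _ => ?_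
    rw [hma]
    have h1 : ⟪η * (m a : ℝ), z a⟫ = η * ((m a : ℝ) * z a) := by
      simp only [RCLike.inner_apply, conj_trivial]
      ring
    rw [h1, mul_assoc]
    refine mul_le_mul_of_nonneg_left ?_ hη.le
    have h2 : (m a : ℝ) * z a ≤ |(m a : ℝ)| * |z a| := by
      rw [← abs_mul]; exact le_abs_self _
    have h3 : |(m a : ℝ)| ≤ (m a : ℝ) ^ 2 := by
      have : |m a| ≤ (m a) ^ 2 := by
        rw [← sq_abs]
        nlinarith [abs_nonneg (m a), Int.one_le_abs (z := m a), sq_nonneg (|m a| - 1),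
          (by by_cases h0 : m a = 0
              · simp [h0]
              · have := Int.one_le_abs h0
                nlinarith : |m a| ≤ |m a| ^ 2)]
      exact_mod_cast this
    have h4 : |(m a : ℝ)| * |z a| ≤ (m a : ℝ) ^ 2 * h :=
      mul_le_mul h3 (hz a) (abs_nonneg _) (sq_nonneg _)
    linarith
  have hone : (1 : ℝ) ≤ ∑ a, (m a : ℝ) ^ 2 := by
    obtain ⟨a, ha⟩ : ∃ a, l a ≠ k a := Function.ne_iff.mp hkl
    have h1 : m a ≠ 0 := by
      simp only [hm]
      intro h0
      apply ha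
      apply Fin.ext
      omega
    have h2 : (1 : ℤ) ≤ (m a) ^ 2 := by
      have := Int.one_le_abs h1
      rw [← sq_abs]
      nlinarith
    have h3 : (1 : ℝ) ≤ (m a : ℝ) ^ 2 := by exact_mod_cast h2
    exact h3.trans (Finset.single_le_sum (f := fun a => (m a : ℝ) ^ 2)
      (fun a _ => sq_nonneg _) (Finset.mem_univ a))
  rw [hnorm]
  have h5 : 0 ≤ η * (η / 2 - h) := mul_nonneg hη.le (by linarith)
  nlinarith

lemma volume_box {d : ℕ} (x : EuclideanSpace ℝ (Fin d)) {h : ℝ} (hh : 0 ≤ h) :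
    volume {y : EuclideanSpace ℝ (Fin d) | ∀ a, |y a - x a| ≤ h} = ENNReal.ofReal ((2 * h) ^ d) := by
  have h1 : {y : EuclideanSpace ℝ (Fin d) | ∀ a, |y a - x a| ≤ h} =
      WithLp.ofLp ⁻¹' (closedBall (WithLp.ofLp x) h) := by
    ext y
    simp only [mem_ofPred_eq, mem_preimage, mem_closedBall, dist_pi_le_iff hh, Real.dist_eq]
  rw [h1, (PiLp.volume_preserving_ofLp (Fin d)).measure_preimage
    measurableSet_closedBall.nullMeasurableSet, Real.volume_pi_closedBall _ hh, Fintype.card_fin]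

end lattice


/-- A function on Euclidean space is polyhedral if it is the pointwise maximum of finitely many
(at least one) affine functions `y ↦ ⟪a, y⟫ + c`. -/
def IsPolyhedral {d : ℕ} (f : EuclideanSpace ℝ (Fin d) → ℝ) : Prop :=
  ∃ (s : Finset (EuclideanSpace ℝ (Fin d) × ℝ)) (hs : s.Nonempty),
    ∀ y, f y = s.sup' hs (fun q => inner ℝ q.1 y + q.2)

/-- The Lipschitz constant of `f` (the least `K` such that `f` is `K`-Lipschitz). -/
noncomputable def lipConst {d : ℕ} (f : EuclideanSpace ℝ (Fin d) → ℝ) : ℝ≥0 :=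
  sInf {K : ℝ≥0 | LipschitzWith K f}

/-- The set `S(f)` of all `x` such that `f` is not differentiable at `prox f x`. -/
def strip {d : ℕ} (f : EuclideanSpace ℝ (Fin d) → ℝ) : Set (EuclideanSpace ℝ (Fin d)) :=
  {x | ¬ DifferentiableAt ℝ f (prox f x)}

/-- Generalized strips. -/
def IsGenStrip {d : ℕ} (S : Set (EuclideanSpace ℝ (Fin d))) : Prop :=
  ∃ f, IsPolyhedral f ∧ S = strip f

/-- The width `2 inf {Lip f : f polyhedral, S = S(f)}` of a generalized strip `S`. -/
noncomputable def width {d : ℕ} (S : Set (EuclideanSpace ℝ (Fin d))) : ℝ≥0∞ :=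
  2 * ⨅ (f : EuclideanSpace ℝ (Fin d) → ℝ) (_ : IsPolyhedral f) (_ : S = strip f),
    (lipConst f : ℝ≥0∞)

/-- The outer measure `γ`. -/
noncomputable def gamma {d : ℕ} (A : Set (EuclideanSpace ℝ (Fin d))) : ℝ≥0∞ :=
  ⨅ (S : ℕ → Set (EuclideanSpace ℝ (Fin d))) (_ : ∀ i, IsGenStrip (S i)) (_ : A ⊆ ⋃ i, S i),
    ∑' i, width (S i)

lemma isPolyhedral_maxAff {d : ℕ} {ι : Type} [Fintype ι] [Nonempty ι]
    (p : ι → EuclideanSpace ℝ (Fin d)) (b : ι → ℝ) : IsPolyhedral (maxAff p b) := by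
  classical
  refine ⟨Finset.univ.image (fun i => (p i, - b i)), Finset.univ_nonempty.image _, fun y => ?_⟩
  rw [Finset.sup'_image]
  unfold maxAff
  rfl

lemma exists_eq_maxAff {d : ℕ} {f : EuclideanSpace ℝ (Fin d) → ℝ} (hf : IsPolyhedral f) :
    ∃ (ι : Type) (_ : Fintype ι) (_ : Nonempty ι) (p : ι → EuclideanSpace ℝ (Fin d)) (b : ι → ℝ),
      f = maxAff p b := by
  obtain ⟨s, hs, hf⟩ := hf
  have : Nonempty s := hs.to_subtype
  refine ⟨s, inferInstance, this, fun q => q.1.1, fun q => - q.1.2, ?_⟩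
  funext y
  rw [hf y]
  apply le_antisymm
  · refine Finset.sup'_le _ _ fun q hq => ?_
    have := le_maxAff (fun q : s => q.1.1) (fun q : s => - q.1.2) ⟨q, hq⟩ y
    simpa using this
  · refine maxAff_le _ _ fun q => ?_
    have := Finset.le_sup' (fun q => inner ℝ q.1 y + q.2) q.2
    simpa using this

/-- Sanity check (not used below): for polyhedral `f` the point `prox f x` is the unique
minimiser of `y ↦ f y + |x - y|² / 2`. -/
lemma prox_isUniqueMin {d : ℕ} {f : EuclideanSpace ℝ (Fin d) → ℝ} (hf : IsPolyhedral f)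
    (x y : EuclideanSpace ℝ (Fin d)) :
    (∀ z, f y + 1 / 2 * ‖x - y‖ ^ 2 ≤ f z + 1 / 2 * ‖x - z‖ ^ 2) ↔ y = prox f x := by
  obtain ⟨ι, _, _, p, b, rfl⟩ := exists_eq_maxAff hf
  have hL : LipschitzWith (∑ i, ‖p i‖₊) (maxAff p b) := by
    refine maxAff_lipschitz p b fun i => ?_
    have := Finset.single_le_sum (f := fun i => ‖p i‖₊) (fun i _ => zero_le) (Finset.mem_univ i)
    exact_mod_cast this
  have hmin := prox_spec hL x
  constructor
  · intro hy
    set y' := prox (maxAff p b) x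
    by_contra hne
    set m : EuclideanSpace ℝ (Fin d) := (1 / 2 : ℝ) • (y + y') with hm
    obtain ⟨i, hi⟩ := exists_maxAff_eq p b m
    have h1 := le_maxAff p b i y
    have h2 := le_maxAff p b i y'
    have h3 : ⟪p i, m⟫ = 1 / 2 * (⟪p i, y⟫ + ⟪p i, y'⟫) := by
      rw [hm, inner_smul_right, inner_add_right]
    have h4 := hy m
    have h5 := hmin m
    have h6 : 2 * ‖x - m‖ ^ 2 = ‖x - y‖ ^ 2 + ‖x - y'‖ ^ 2 - 1 / 2 * ‖y - y'‖ ^ 2 := by
      have e1 : x - m = (1 / 2 : ℝ) • ((x - y) + (x - y')) := by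
        rw [hm]; module
      have e2 : (x - y') - (x - y) = y - y' := by abel
      have e3 : ‖x - y' + (x - y)‖ * ‖x - y' + (x - y)‖ + ‖x - y' - (x - y)‖ * ‖x - y' - (x - y)‖ =
          2 * (‖x - y'‖ * ‖x - y'‖ + ‖x - y‖ * ‖x - y‖) := by
        have := parallelogram_law_with_norm ℝ (x - y') (x - y)
        linarith
      rw [e2] at e3
      rw [e1, norm_smul, mul_pow, add_comm (x - y) (x - y'), Real.norm_of_nonneg (by norm_num)]
      linarith
    have h7 : 0 < ‖y - y'‖ ^ 2 := by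
      have : y - y' ≠ 0 := sub_ne_zero.mpr hne
      positivity
    linarith
  · rintro rfl
    exact hmin

lemma width_strip_le {d : ℕ} {f : EuclideanSpace ℝ (Fin d) → ℝ} (hf : IsPolyhedral f) {K : ℝ≥0}
    (hK : LipschitzWith K f) : width (strip f) ≤ 2 * K := by
  have h1 : lipConst f ≤ K := csInf_le (OrderBot.bddBelow _) hK
  have h2 : (⨅ (g : EuclideanSpace ℝ (Fin d) → ℝ) (_ : IsPolyhedral g) (_ : strip f = strip g),
      (lipConst g : ℝ≥0∞)) ≤ K :=
    (iInf₂_le f hf).trans ((iInf_le _ rfl).trans (by exact_mod_cast h1))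
  exact mul_le_mul' le_rfl h2

/-- Compact sets of small measure are covered by a single generalized strip of small width. -/
lemma cover_compact {d : ℕ} (hd : 1 ≤ d) {ε : ℝ≥0} (hε : 0 < ε)
    {C : Set (EuclideanSpace ℝ (Fin d))} (hC : IsCompact C)
    (hvol : volume C < ENNReal.ofReal ((2 * ε / √d) ^ d)) :
    ∃ f : EuclideanSpace ℝ (Fin d) → ℝ, IsPolyhedral f ∧ LipschitzWith ε f ∧ C ⊆ strip f := by
  have hdpos : (0 : ℝ) < √d := Real.sqrt_pos.mpr (by exact_mod_cast hd)
  have hεpos : (0 : ℝ) < ε := by exact_mod_cast hε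
  set V : ℝ := (2 * ε / √d) ^ d with hV
  have hVpos : 0 < V := by positivity
  obtain ⟨U, hCU, hUo, hUV⟩ := C.exists_isOpen_lt_of_lt _ hvol
  obtain ⟨δ, hδ, hδU⟩ := hC.exists_cthickening_subset_open hUo hCU
  set U' := cthickening δ C with hU'
  have hU'm : MeasurableSet U' := isClosed_cthickening.measurableSet
  have hU'b : Bornology.IsBounded U' := hC.isBounded.cthickening
  have hU'V : (volume U').toReal < V := by
    have h1 : volume U' < ENNReal.ofReal V := (measure_mono hδU).trans_lt hUV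
    have h2 := ENNReal.toReal_strict_mono ENNReal.ofReal_ne_top h1
    rwa [ENNReal.toReal_ofReal hVpos.le] at h2
  -- choice of the grid
  obtain ⟨n, hn⟩ := exists_nat_gt (ε / δ : ℝ)
  have hnpos : (0 : ℝ) < n := lt_of_le_of_lt (by positivity) hn
  have hnδ : (ε : ℝ) < n * δ := by rwa [div_lt_iff₀ hδ] at hn
  set η : ℝ := ε / (n * √d) with hη
  have hηpos : 0 < η := by positivity
  set h : ℝ := n * η / (2 * n + 1) with hh
  have hhpos : 0 < h := by positivity
  have hh2 : h < η / 2 := by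
    rw [hh, div_lt_div_iff₀ (by positivity) (by norm_num)]
    nlinarith
  have hcard : (Fintype.card (Fin d → Fin (2 * n + 1)) : ℝ) = (2 * n + 1) ^ d := by
    rw [Fintype.card_fun, Fintype.card_fin, Fintype.card_fin]
    push_cast
    ring
  have hVeq : V = (2 * n + 1) ^ d * (2 * h) ^ d := by
    rw [hV, ← mul_pow]
    congr 1
    rw [hh, hη]
    field_simp
  have hlt : (volume U').toReal / Fintype.card (Fin d → Fin (2 * n + 1)) < (2 * h) ^ d := by
    rw [hcard, div_lt_iff₀ (by positivity), mul_comm, ← hVeq]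
    exact hU'V
  obtain ⟨κ, hκ1, hκ2⟩ := exists_between hlt
  have ht : 0 < η * (η / 2 - h) := mul_pos hηpos (by linarith)
  set p := gridPt (d := d) η n with hp
  obtain ⟨c, hc⟩ := exists_weights p hU'm hU'b ht hκ1
  set b : (Fin d → Fin (2 * n + 1)) → ℝ := fun k => c k - ‖p k‖ ^ 2 / 2 with hb
  have hpnorm : ∀ k, ‖p k‖ ≤ ε := by
    intro k
    refine (norm_gridPt_le hηpos n k).trans (le_of_eq ?_)
    rw [hη]
    field_simp
  have hLip : LipschitzWith ε (maxAff p b) := maxAff_lipschitz p b hpnorm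
  refine ⟨maxAff p b, isPolyhedral_maxAff p b, hLip, fun x hx hdiff => ?_⟩
  obtain ⟨k, hk, hkl⟩ := eq_of_differentiable (gridPt_injective hηpos n)
    (fun z => prox_spec hLip x z) hdiff
  set y := prox (maxAff p b) x with hy
  -- the box around `x` is contained in a cell
  have hsub : {y : EuclideanSpace ℝ (Fin d) | ∀ a, |y a - x a| ≤ h} ⊆
      U' ∩ {x | ∀ l, l ≠ k → ⟪p l, x⟫ - c l + η * (η / 2 - h) ≤ ⟪p k, x⟫ - c k} := by
    intro x' hx'
    have hbox : ∀ a, |(x' - x) a| ≤ h := hx'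
    constructor
    · refine mem_cthickening_of_dist_le x' x δ C hx ?_
      rw [dist_eq_norm, EuclideanSpace.norm_eq]
      have h1 : ∑ a, ‖(x' - x) a‖ ^ 2 ≤ h ^ 2 * d := by
        calc ∑ a, ‖(x' - x) a‖ ^ 2 ≤ ∑ _a : Fin d, h ^ 2 := by
              refine Finset.sum_le_sum fun a _ => ?_
              rw [Real.norm_eq_abs]
              exact pow_le_pow_left₀ (abs_nonneg _) (hbox a) 2
          _ = h ^ 2 * d := by simp [mul_comm]
      calc √(∑ a, ‖(x' - x) a‖ ^ 2) ≤ √(h ^ 2 * d) := Real.sqrt_le_sqrt h1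
        _ = h * √d := by rw [Real.sqrt_mul (by positivity), Real.sqrt_sq hhpos.le]
        _ ≤ η / 2 * √d := by gcongr
        _ = ε / n / 2 := by rw [hη]; field_simp
        _ ≤ δ := by
          rw [div_div, div_le_iff₀ (by positivity)]
          nlinarith
    · intro l hl
      have h1 := hkl l hl
      have h2 := grid_ineq hηpos hh2.le n hl hbox
      have hx'x : x' = y + p k + (x' - x) := by rw [← hk]; abel
      have h3 : ‖p l - p k‖ ^ 2 = ‖p l‖ ^ 2 - 2 * ⟪p l, p k⟫ + ‖p k‖ ^ 2 := norm_sub_sq_real _ _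
      have h4 : ⟪p l - p k, x' - x⟫ = ⟪p l, x' - x⟫ - ⟪p k, x' - x⟫ := inner_sub_left _ _ _
      have h5 : ⟪p l, x'⟫ = ⟪p l, y⟫ + ⟪p l, p k⟫ + ⟪p l, x' - x⟫ := by
        conv_lhs => rw [hx'x]
        rw [inner_add_right, inner_add_right]
      have h6 : ⟪p k, x'⟫ = ⟪p k, y⟫ + ‖p k‖ ^ 2 + ⟪p k, x' - x⟫ := by
        conv_lhs => rw [hx'x]
        rw [inner_add_right, inner_add_right, real_inner_self_eq_norm_sq]
      show ⟪p l, x'⟫ - c l + η * (η / 2 - h) ≤ ⟪p k, x'⟫ - c k
      rw [h5, h6]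
      simp only [hb] at h1
      rw [← hp] at h2
      rw [h3, h4] at h2
      linarith
  have hvolbox := measure_mono (μ := volume) hsub
  rw [volume_box x hhpos.le] at hvolbox
  have hfin : volume (U' ∩ {x | ∀ l, l ≠ k → ⟪p l, x⟫ - c l + η * (η / 2 - h) ≤
      ⟪p k, x⟫ - c k}) ≠ ∞ :=
    ((measure_mono inter_subset_left).trans_lt hU'b.measure_lt_top).ne
  have h7 := ENNReal.toReal_mono hfin hvolbox
  rw [ENNReal.toReal_ofReal (by positivity)] at h7
  have h8 := hc k
  linarith


/-- Any set of measure zero is covered by countably many compact sets with prescribed positive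
upper bounds for their measures. -/
lemma exists_compact_cover {d : ℕ} {A : Set (EuclideanSpace ℝ (Fin d))} (hA : volume A = 0)
    (δ : ℕ → ℝ≥0∞) (hδ : ∀ j, 0 < δ j) :
    ∃ C : ℕ → Set (EuclideanSpace ℝ (Fin d)),
      (∀ j, IsCompact (C j)) ∧ (∀ j, volume (C j) < δ j) ∧ A ⊆ ⋃ j, C j := by
  -- a first cover by countably many closed balls
  obtain ⟨a, ha0, ha⟩ : ∃ a : ℝ≥0∞, 0 < a ∧ a < min (δ 0) 1 :=
    exists_between (lt_min (hδ 0) one_pos)
  obtain ⟨t, r, htc, -, -, hcov, hsum⟩ :=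
    Besicovitch.exists_closedBall_covering_tsum_measure_le
      (volume : Measure (EuclideanSpace ℝ (Fin d))) ha0.ne' (fun _ => univ) A
      (fun x _ ε hε => by simpa using hε)
  rw [hA, zero_add] at hsum
  have : Encodable t := htc.toEncodable
  set B : ℕ → Set (EuclideanSpace ℝ (Fin d)) :=
    fun i => ⋃ b ∈ Encodable.decode₂ t i, closedBall (b : EuclideanSpace ℝ (Fin d)) (r b) with hB
  have hBc : ∀ i, IsCompact (B i) := fun i =>
    Encodable.iUnion_decode₂_cases (C := IsCompact) isCompact_empty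
      (fun b => isCompact_closedBall _ _)
  have hBsum : ∑' i, volume (B i) ≤ a := by
    have h1 : ∑' i, volume (B i) = ∑' b : t, volume (closedBall (b : EuclideanSpace ℝ (Fin d)) (r b)) :=
      tsum_iUnion_decode₂ (m := fun s => volume s) measure_empty _
    rw [h1]
    exact hsum
  have hBcov : A ⊆ ⋃ i, B i := by
    rw [hB, Encodable.iUnion_decode₂]
    intro x hx
    obtain ⟨y, hy, hxy⟩ := mem_iUnion₂.mp (hcov hx)
    exact mem_iUnion.mpr ⟨⟨y, hy⟩, hxy⟩
  have hBfin : ∑' i, volume (B i) ≠ ∞ :=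
    (hBsum.trans_lt (ha.trans_le (min_le_right _ _))).ne_top
  have htail := ENNReal.tendsto_sum_nat_add (fun i => volume (B i)) hBfin
  have hex : ∀ j : ℕ, ∃ m : ℕ, j ≤ m ∧ ∑' k, volume (B (k + m)) < δ j := by
    intro j
    have h1 := (htail.eventually (gt_mem_nhds (hδ j))).and (Filter.eventually_ge_atTop j)
    obtain ⟨m, hm1, hm2⟩ := h1.exists
    exact ⟨m, hm2, hm1⟩
  choose m₀ hm₀j hm₀ using hex
  set m : ℕ → ℕ := fun j => if j = 0 then 0 else m₀ j with hm
  have hmj : ∀ j, j ≤ m j := by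
    intro j
    simp only [hm]
    split_ifs with h
    · simp [h]
    · exact hm₀j j
  have hmtail : ∀ j, ∑' k, volume (B (k + m j)) < δ j := by
    intro j
    simp only [hm]
    split_ifs with h
    · subst h
      simpa using hBsum.trans_lt (ha.trans_le (min_le_left _ _))
    · exact hm₀ j
  refine ⟨fun j => ⋃ k ∈ Finset.range (m (j + 1) - m j), B (k + m j), ?_, ?_, ?_⟩
  · intro j
    exact (Finset.range _).isCompact_biUnion fun k _ => hBc _
  · intro j
    calc volume (⋃ k ∈ Finset.range (m (j + 1) - m j), B (k + m j))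
        ≤ ∑ k ∈ Finset.range (m (j + 1) - m j), volume (B (k + m j)) :=
          measure_biUnion_finset_le _ _
      _ ≤ ∑' k, volume (B (k + m j)) := ENNReal.sum_le_tsum _
      _ < δ j := hmtail j
  · intro x hx
    obtain ⟨k, hk⟩ := mem_iUnion.mp (hBcov hx)
    have hex : ∃ j, k < m (j + 1) := ⟨k, (Nat.lt_succ_self k).trans_le (hmj (k + 1))⟩
    classical
    have h1 := Nat.find_spec hex
    have h2 : m (Nat.find hex) ≤ k := by
      by_contra hlt
      push Not at hlt
      cases hj : Nat.find hex with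
      | zero =>
        rw [hj] at hlt
        simp [hm] at hlt
      | succ j =>
        rw [hj] at hlt
        exact Nat.find_min hex (m := j) (by omega) hlt
    refine mem_iUnion.mpr ⟨Nat.find hex, mem_iUnion₂.mpr ⟨k - m (Nat.find hex), ?_, ?_⟩⟩
    · rw [Finset.mem_range]; omega
    · rwa [Nat.sub_add_cancel h2]

/-- **Theorem.** For every `d ≥ 2`, every Lebesgue null subset of `ℝ^d` is `γ`-null. -/
theorem result : ∀ d : ℕ, 2 ≤ d → ∀ A : Set (EuclideanSpace ℝ (Fin d)),
    volume A = 0 → gamma A = 0 := by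
  intro d hd A hA
  have hd1 : 1 ≤ d := by omega
  have hdpos : (0 : ℝ) < √d := Real.sqrt_pos.mpr (by exact_mod_cast hd1)
  refine le_antisymm ?_ bot_le
  refine ENNReal.le_of_forall_pos_le_add fun ε hε _ => ?_
  rw [zero_add]
  set e : ℕ → ℝ≥0 := fun j => ε / 2 / 2 / 2 ^ j with he
  have hepos : ∀ j, 0 < e j := fun j => by positivity
  obtain ⟨C, hCc, hCv, hCcov⟩ := exists_compact_cover hA
    (fun j => ENNReal.ofReal ((2 * (e j : ℝ) / √d) ^ d))
    (fun j => ENNReal.ofReal_pos.mpr (by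
      have : (0 : ℝ) < e j := by exact_mod_cast hepos j
      positivity))
  choose f hfp hfL hfC using fun j => cover_compact hd1 (hepos j) (hCc j) (hCv j)
  have h1 : gamma A ≤ ∑' j, width (strip (f j)) := by
    unfold gamma
    refine iInf_le_of_le (fun j => strip (f j)) ?_
    refine iInf_le_of_le (fun j => ⟨f j, hfp j, rfl⟩) ?_
    refine iInf_le_of_le ?_ le_rfl
    exact hCcov.trans (iUnion_mono hfC)
  have h2 : ∑' j, width (strip (f j)) ≤ ∑' j, ((2 * e j : ℝ≥0) : ℝ≥0∞) := by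
    refine ENNReal.tsum_le_tsum fun j => ?_
    have := width_strip_le (hfp j) (hfL j)
    push_cast
    exact this
  have h3 : ∑' j, ((2 * e j : ℝ≥0) : ℝ≥0∞) = ε := by
    have h4 : ∀ j, 2 * e j = ε / 2 / 2 ^ j := by
      intro j
      simp only [he]
      field_simp
    simp_rw [h4]
    rw [← ENNReal.coe_tsum]
    · congr 1
      rw [← NNReal.coe_inj, NNReal.coe_tsum]
      push_cast
      exact tsum_geometric_two' (ε : ℝ)
    · rw [← NNReal.summable_coe]
      push_cast
      exact summable_geometric_two' (ε : ℝ)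
  exact h1.trans (h2.trans h3.le)

end Pool.Agent.Results.MP_0a22a9_gt.LebesgueNullIsGammaNull
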